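import Pool.Agent.H748R2.AL.Eig

/-!
# Gaussian disorder: every eigenfunction of `H_σ = Δ + σ ξ` is spread out on the scale `σ⁻²`
-/

namespace Pool.Agent.H780R2.AG

open Finset MeasureTheory ProbabilityTheory Pool.Agent.H748R2.AL

variable {d : ℕ}

/-- the operator `H_σ ψ (x) = ∑_{|y - x| = 1} ψ y + σ ξ(x) ψ(x)` on `ℤ^d`. -/
noncomputable def HG (σ : ℝ) (ξ : (Fin d → ℤ) → ℝ) (ψ : (Fin d → ℤ) → ℂ) (x : Fin d → ℤ) : ℂ :=
  ∑ j, (ψ (x + Pi.single j 1) + ψ (x - Pi.single j 1)) + σ * ξ x * ψ x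

/-- The realisation `ξ` on the box of size `R` spreads all approximate solutions of
`H_σ ψ = E ψ`. -/
def SpreadG (d : ℕ) (C κ D σ : ℝ) (R : ℕ) (ξ : (Fin d → ℤ) → ℝ) : Prop :=
  ∀ E : ℝ, (∀ m : ℤ, κ ≤ |E - 2 * d - 4 * m|) → ∀ ψ : (Fin d → ℤ) → ℂ,
    ∑ x ∈ box d (2 * R), ‖HG σ ξ ψ x - E * ψ x‖ ^ 2 ≤
      σ ^ 4 * (D * ∑ x ∈ box d R, ‖ψ x‖ ^ 2) →
    ∑ x ∈ box d (2 * R + 1), ‖ψ x‖ ^ 2 ≤ D * ∑ x ∈ box d R, ‖ψ x‖ ^ 2 →
    ∀ (A : Fin d → Finset ℤ) (ρ : ℕ), 1 ≤ ρ → (∀ j, A j ⊆ Finset.Icc (-(R : ℤ)) R) →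
      (∀ j, (A j).card ≤ ρ) →
      ∑ x ∈ Fintype.piFinset A, ‖ψ x‖ ^ 2 ≤
        C * ρ * σ ^ 2 * Real.log R ^ 2 * Real.log (1 / σ) ^ 2 * ∑ x ∈ box d R, ‖ψ x‖ ^ 2

/-- No square summable `ψ ≠ 0` with `‖(H_σ - E) ψ‖ ≤ σ² ‖ψ‖` has half of its mass in a product
set with short sides contained in the box of size `R`. -/
def NoShortG (d : ℕ) (C κ σ : ℝ) (R : ℕ) (ξ : (Fin d → ℤ) → ℝ) : Prop :=
  ∀ E : ℝ, (∀ m : ℤ, κ ≤ |E - 2 * d - 4 * m|) → ∀ ψ : (Fin d → ℤ) → ℂ, ψ ≠ 0 →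
    Summable (fun x => ‖ψ x‖ ^ 2) → Summable (fun x => ‖HG σ ξ ψ x - E * ψ x‖ ^ 2) →
    ∑' x, ‖HG σ ξ ψ x - E * ψ x‖ ^ 2 ≤ σ ^ 4 * ∑' x, ‖ψ x‖ ^ 2 →
    ∀ (A : Fin d → Finset ℤ) (ρ : ℕ), 1 ≤ ρ → (∀ j, A j ⊆ Finset.Icc (-(R : ℤ)) R) →
      (∀ j, (A j).card ≤ ρ) → 1 / 2 * ∑' x, ‖ψ x‖ ^ 2 ≤ ∑ x ∈ Fintype.piFinset A, ‖ψ x‖ ^ 2 →
      1 ≤ C * ρ * σ ^ 2 * Real.log R ^ 2 * Real.log (1 / σ) ^ 2

theorem SpreadG.mono {C κ D D' σ : ℝ} {R : ℕ} {ξ : (Fin d → ℤ) → ℝ} (h : D ≤ D')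
    (hS : SpreadG d C κ D' σ R ξ) : SpreadG d C κ D σ R ξ := by
  intro E hE ψ h1 h2
  have hM : 0 ≤ ∑ x ∈ box d R, ‖ψ x‖ ^ 2 := sum_nonneg fun z _ => by positivity
  have h3 := mul_le_mul_of_nonneg_right h hM
  refine hS E hE ψ (h1.trans ?_) (h2.trans h3)
  exact mul_le_mul_of_nonneg_left h3 (by positivity)

theorem SpreadG.mono_C {C C' κ D σ : ℝ} {R : ℕ} {ξ : (Fin d → ℤ) → ℝ} (h : C ≤ C')
    (hS : SpreadG d C κ D σ R ξ) : SpreadG d C' κ D σ R ξ := by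
  intro E hE ψ h1 h2 A ρ hρ hA hc
  refine (hS E hE ψ h1 h2 A ρ hρ hA hc).trans ?_
  have hM : 0 ≤ ∑ x ∈ box d R, ‖ψ x‖ ^ 2 := sum_nonneg fun z _ => by positivity
  gcongr

theorem SpreadG.noShort {C κ σ : ℝ} {R : ℕ} {ξ : (Fin d → ℤ) → ℝ} (hC : 0 ≤ C)
    (hS : SpreadG d C κ 2 σ R ξ) : NoShortG d (2 * C) κ σ R ξ := by
  intro E hE ψ hψ hs1 hs2 hres A ρ hρ hA hc hhalf
  set S := ∑' x, ‖ψ x‖ ^ 2 with hSdef
  have hSpos : 0 < S := by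
    obtain ⟨x, hx⟩ := Function.ne_iff.1 hψ
    have h1 : 0 < ‖ψ x‖ ^ 2 := by
      have : 0 < ‖ψ x‖ := norm_pos_iff.2 hx
      positivity
    exact lt_of_lt_of_le h1 (hs1.le_tsum x fun y _ => by positivity)
  have hsub : ∑ x ∈ Fintype.piFinset A, ‖ψ x‖ ^ 2 ≤ ∑ x ∈ box d R, ‖ψ x‖ ^ 2 := by
    refine sum_le_sum_of_subset_of_nonneg ?_ fun z _ _ => by positivity
    intro z hz
    unfold Pool.Agent.H748R2.AL.box
    rw [Fintype.mem_piFinset] at hz ⊢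
    exact fun j => hA j (hz j)
  set M := ∑ x ∈ box d R, ‖ψ x‖ ^ 2 with hMdef
  have hSM : S ≤ 2 * M := by linarith
  have hMS : M ≤ S := hs1.sum_le_tsum _ fun y _ => by positivity
  have h1 : ∑ x ∈ box d (2 * R), ‖HG σ ξ ψ x - E * ψ x‖ ^ 2 ≤ σ ^ 4 * (2 * M) := by
    refine (hs2.sum_le_tsum _ fun y _ => by positivity).trans (hres.trans ?_)
    exact mul_le_mul_of_nonneg_left hSM (by positivity)
  have h2 : ∑ x ∈ box d (2 * R + 1), ‖ψ x‖ ^ 2 ≤ 2 * M :=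
    (hs1.sum_le_tsum _ fun y _ => by positivity).trans hSM
  have h3 := hS E hE ψ h1 h2 A ρ hρ hA hc
  have h4 : 1 / 2 * S ≤ C * ρ * σ ^ 2 * Real.log R ^ 2 * Real.log (1 / σ) ^ 2 * S := by
    refine hhalf.trans (h3.trans ?_)
    exact mul_le_mul_of_nonneg_left hMS (by positivity)
  have h5 := le_of_mul_le_mul_right h4 hSpos
  linarith

/-- truncation -/
noncomputable def tr (L y : ℝ) : ℝ := if |y| ≤ L then -(y / L) else 0

theorem tr_measurable (L : ℝ) : Measurable (tr L) := by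
  unfold tr
  exact Measurable.ite (measurableSet_le measurable_norm measurable_const)
    (measurable_id.div_const L).neg measurable_const

theorem tr_abs {L : ℝ} (hL : 0 < L) (y : ℝ) : |tr L y| ≤ 1 := by
  unfold tr
  split_ifs with h
  · rw [abs_neg, abs_div, abs_of_pos hL, div_le_one hL]; exact h
  · simp

theorem tr_neg (L y : ℝ) : tr L (-y) = -tr L y := by
  unfold tr
  rw [abs_neg]
  split_ifs <;> simp [neg_div]

theorem tr_integral (L : ℝ) : ∫ y, tr L y ∂(gaussianReal 0 1) = 0 := by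
  have h1 : ∫ y, tr L y ∂(gaussianReal 0 1) = ∫ y, tr L (-y) ∂(gaussianReal 0 1) := by
    conv_lhs => rw [show gaussianReal 0 1 = (gaussianReal 0 1).map (fun x => -x) by
      rw [gaussianReal_map_neg]; simp]
    rw [integral_map (by fun_prop) (tr_measurable L).aestronglyMeasurable]
  simp only [tr_neg, integral_neg] at h1
  linarith

/-- Gaussian tail. -/
theorem gauss_tail {Ω : Type*} [MeasurableSpace Ω] (P : Measure Ω) [IsProbabilityMeasure P]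
    (X : Ω → ℝ) (hX : Measurable X) (hlaw : P.map X = gaussianReal 0 1) (L : ℝ) (hL : 0 ≤ L) :
    P {ω | L < |X ω|} ≤ ENNReal.ofReal (2 * Real.exp (-(L ^ 2 / 2))) := by
  have key : ∀ Y : Ω → ℝ, Measurable Y → P.map Y = gaussianReal 0 1 →
      P.real {ω | L ≤ Y ω} ≤ Real.exp (-(L ^ 2 / 2)) := by
    intro Y hY hYl
    have hint : Integrable (fun ω => Real.exp (L * Y ω)) P := by
      have h1 : Integrable (fun y => Real.exp (L * y)) (P.map Y) := by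
        rw [hYl]; exact integrable_exp_mul_gaussianReal L
      exact h1.comp_measurable hY
    refine (measure_ge_le_exp_mul_mgf L hL hint).trans ?_
    rw [mgf_gaussianReal hYl, ← Real.exp_add]
    apply Real.exp_le_exp.2
    simp only [NNReal.coe_one]
    nlinarith
  have h1 := key X hX hlaw
  have h2 := key (fun ω => -X ω) hX.neg (by
    have : (fun ω => -X ω) = (fun x : ℝ => -x) ∘ X := rfl
    rw [this, ← Measure.map_map measurable_neg hX, hlaw, gaussianReal_map_neg]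
    simp)
  have hsub : {ω | L < |X ω|} ⊆ {ω | L ≤ X ω} ∪ {ω | L ≤ -X ω} := by
    intro ω hω
    simp only [Set.mem_setOf_eq, lt_abs] at hω
    rcases hω with h | h
    · exact Or.inl h.le
    · exact Or.inr h.le
  have h3 : P.real {ω | L < |X ω|} ≤ 2 * Real.exp (-(L ^ 2 / 2)) := by
    calc P.real {ω | L < |X ω|} ≤ P.real ({ω | L ≤ X ω} ∪ {ω | L ≤ -X ω}) :=
          measureReal_mono hsub
      _ ≤ P.real {ω | L ≤ X ω} + P.real {ω | L ≤ -X ω} := measureReal_union_le _ _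
      _ ≤ _ := by linarith
  rw [← ofReal_measureReal]
  exact ENNReal.ofReal_le_ofReal h3

end Pool.Agent.H780R2.AG
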