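import Pool.Agent.H780R2.AG.Gauss

namespace Pool.Agent.H780R2.AG

open Finset MeasureTheory ProbabilityTheory Pool.Agent.H748R2.AL

variable {d : ℕ}

/-- when `σ² log R` is not small, the spreading bound is trivial. -/
theorem spreadG_trivial {C κ D σ : ℝ} {R : ℕ} {ξ : (Fin d → ℤ) → ℝ}
    (h : 1 ≤ C * σ ^ 2 * Real.log R ^ 2 * Real.log (1 / σ) ^ 2) :
    SpreadG d C κ D σ R ξ := by
  intro E hE ψ h1 h2 A ρ hρ hA hc
  have hM : 0 ≤ ∑ x ∈ box d R, ‖ψ x‖ ^ 2 := sum_nonneg fun z _ => by positivity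
  have hsub : ∑ x ∈ Fintype.piFinset A, ‖ψ x‖ ^ 2 ≤ ∑ x ∈ box d R, ‖ψ x‖ ^ 2 := by
    refine sum_le_sum_of_subset_of_nonneg ?_ fun z _ _ => by positivity
    intro z hz
    unfold Pool.Agent.H748R2.AL.box
    rw [Fintype.mem_piFinset] at hz ⊢
    exact fun j => hA j (hz j)
  refine hsub.trans ?_
  have hρ' : (1 : ℝ) ≤ ρ := by exact_mod_cast hρ
  have h3 : 1 ≤ C * ρ * σ ^ 2 * Real.log R ^ 2 * Real.log (1 / σ) ^ 2 := by
    have : C * ρ * σ ^ 2 * Real.log R ^ 2 * Real.log (1 / σ) ^ 2 =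
      (C * σ ^ 2 * Real.log R ^ 2 * Real.log (1 / σ) ^ 2) * ρ := by ring
    rw [this]
    nlinarith
  calc ∑ x ∈ box d R, ‖ψ x‖ ^ 2 = 1 * ∑ x ∈ box d R, ‖ψ x‖ ^ 2 := (one_mul _).symm
    _ ≤ _ := mul_le_mul_of_nonneg_right h3 hM

/-- transfer from the truncated bounded potential. -/
theorem spreadG_of_spread {C κ D σ L c : ℝ} {R : ℕ} {ξ : (Fin d → ℤ) → ℝ} (hC : 0 ≤ C)
    (hD : 0 ≤ D) (hσ : 0 < σ) (hL : 1 ≤ L) (hσL : σ * L ≤ 1 / 2) (hL2 : L ^ 2 = c * Real.log R)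
    (hR : 1 ≤ R)
    (hb : ∀ x ∈ box d (2 * R), |ξ x| ≤ L)
    (hS : Spread d C κ D (σ * L) R (fun x => tr L (ξ x))) :
    SpreadG d (C * c) κ D σ R ξ := by
  intro E hE ψ h1 h2 A ρ hρ hA hc
  have hM : 0 ≤ ∑ x ∈ box d R, ‖ψ x‖ ^ 2 := sum_nonneg fun z _ => by positivity
  have hL0 : 0 < L := by linarith
  have hlam : 0 < σ * L := by positivity
  have hσlam : σ ≤ σ * L := by nlinarith
  have hE' : ∀ m : ℤ, κ ≤ |(2 * d - E) - 4 * m| := by
    intro m
    have := hE (-m)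
    rw [show (2 * (d : ℝ) - E) - 4 * m = -(E - 2 * d - 4 * ((-m : ℤ) : ℝ)) by push_cast; ring,
      abs_neg]
    exact this
  have heq : ∀ x ∈ box d (2 * R),
      ‖HZ (σ * L) (fun x => tr L (ξ x)) ψ x - ((2 * d - E : ℝ) : ℂ) * ψ x‖ ^ 2 =
        ‖HG σ ξ ψ x - E * ψ x‖ ^ 2 := by
    intro x hx
    congr 1
    rw [← norm_neg]
    congr 1
    unfold HZ HG
    have h3 : tr L (ξ x) = -(ξ x / L) := by
      unfold tr
      rw [if_pos (hb x hx)]
    beta_reduce
    rw [h3]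
    have h4 : (((σ * L : ℝ) : ℂ) * ((-(ξ x / L) : ℝ) : ℂ)) = -(σ * ξ x : ℂ) := by
      rw [← Complex.ofReal_mul]
      rw [show σ * L * -(ξ x / L) = -(σ * ξ x) by field_simp]
      push_cast
      ring
    rw [h4]
    have h5 : (∑ j, (2 * ψ x - ψ (x + Pi.single j 1) - ψ (x - Pi.single j 1)) : ℂ) =
        2 * d * ψ x - ∑ j, (ψ (x + Pi.single j 1) + ψ (x - Pi.single j 1)) := by
      have : ∀ j : Fin d, (2 * ψ x - ψ (x + Pi.single j 1) - ψ (x - Pi.single j 1) : ℂ) =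
          2 * ψ x - (ψ (x + Pi.single j 1) + ψ (x - Pi.single j 1)) := by intro j; ring
      rw [Finset.sum_congr rfl fun j _ => this j, Finset.sum_sub_distrib, Finset.sum_const]
      simp
      ring
    rw [h5]
    push_cast
    ring
  have h1' : ∑ x ∈ box d (2 * R),
      ‖HZ (σ * L) (fun x => tr L (ξ x)) ψ x - ((2 * d - E : ℝ) : ℂ) * ψ x‖ ^ 2 ≤
      (σ * L) ^ 4 * (D * ∑ x ∈ box d R, ‖ψ x‖ ^ 2) := by
    rw [Finset.sum_congr rfl heq]
    refine h1.trans ?_
    refine mul_le_mul_of_nonneg_right ?_ (by positivity)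
    exact pow_le_pow_left₀ hσ.le hσlam 4
  have h3 := hS (2 * d - E) hE' ψ h1' h2 A ρ hρ hA hc
  refine h3.trans (mul_le_mul_of_nonneg_right ?_ hM)
  have hlog : Real.log (1 / (σ * L)) ≤ Real.log (1 / σ) := by
    apply Real.log_le_log (by positivity)
    exact one_div_le_one_div_of_le hσ hσlam
  have hlog0 : 0 ≤ Real.log (1 / (σ * L)) := by
    apply Real.log_nonneg
    rw [le_div_iff₀ hlam]
    linarith
  have hlogR : 0 ≤ Real.log R := Real.log_nonneg (by exact_mod_cast hR)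
  have h4 : Real.log (1 / (σ * L)) ^ 2 ≤ Real.log (1 / σ) ^ 2 := pow_le_pow_left₀ hlog0 hlog 2
  calc C * ρ * (σ * L) ^ 2 * Real.log R * Real.log (1 / (σ * L)) ^ 2
      ≤ C * ρ * (σ * L) ^ 2 * Real.log R * Real.log (1 / σ) ^ 2 := by
        apply mul_le_mul_of_nonneg_left h4
        positivity
    _ = C * c * ρ * σ ^ 2 * Real.log R ^ 2 * Real.log (1 / σ) ^ 2 := by
        rw [mul_pow, hL2]; ring

theorem card_box_le {R : ℕ} (hR : 4 ≤ R) : ((box d (2 * R)).card : ℝ) ≤ (R : ℝ) ^ (3 * d) := by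
  have h1 : (box d (2 * R)).card = (4 * R + 1) ^ d := by
    unfold Pool.Agent.H748R2.AL.box
    rw [Fintype.card_piFinset]
    simp only [Int.card_Icc, prod_const, card_univ, Fintype.card_fin]
    congr 1
    push_cast
    omega
  rw [h1, pow_mul]
  push_cast
  apply pow_le_pow_left₀ (by positivity)
  have : (4 : ℝ) ≤ R := by exact_mod_cast hR
  nlinarith [mul_nonneg (by linarith : (0:ℝ) ≤ R - 4) (by linarith : (0:ℝ) ≤ R - 4), sq_nonneg (R:ℝ)]

/-- with high probability all the variables in the box are bounded by `L`. -/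
theorem union_bound {Ω : Type*} [MeasurableSpace Ω] (P : Measure Ω) [IsProbabilityMeasure P]
    (ξ : (Fin d → ℤ) → Ω → ℝ) (hm : ∀ x, Measurable (ξ x))
    (hlaw : ∀ x, P.map (ξ x) = gaussianReal 0 1) {K L c : ℝ} (R : ℕ) (hR : 4 ≤ R)
    (hc : c = 2 * (3 * d + 2 + K)) (hL : 0 ≤ L) (hL2 : L ^ 2 = c * Real.log R) :
    P {ω | ¬ ∀ x ∈ box d (2 * R), |ξ x ω| ≤ L} ≤
      ENNReal.ofReal (2 * (R : ℝ) ^ (-(K + 2))) := by
  have hR0 : (0 : ℝ) < R := by exact_mod_cast (by omega : 0 < R)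
  have hset : {ω | ¬ ∀ x ∈ box d (2 * R), |ξ x ω| ≤ L} =
      ⋃ x ∈ box d (2 * R), {ω | L < |ξ x ω|} := by
    ext ω
    simp
  rw [hset]
  refine (measure_biUnion_finset_le _ _).trans ?_
  refine (Finset.sum_le_sum fun x _ => gauss_tail P (ξ x) (hm x) (hlaw x) L hL).trans ?_
  rw [Finset.sum_const, nsmul_eq_mul]
  have h1 : ((box d (2 * R)).card : ENNReal) = ENNReal.ofReal ((box d (2 * R)).card : ℝ) := by
    rw [ENNReal.ofReal_natCast]
  rw [h1, ← ENNReal.ofReal_mul (by positivity)]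
  apply ENNReal.ofReal_le_ofReal
  have h2 : Real.exp (-(L ^ 2 / 2)) = (R : ℝ) ^ (-(3 * d + 2 + K)) := by
    rw [hL2, hc, Real.rpow_def_of_pos hR0]
    congr 1
    ring
  rw [h2]
  have h3 : (R : ℝ) ^ (3 * d) = (R : ℝ) ^ (3 * d : ℝ) := by
    rw [← Real.rpow_natCast]
    push_cast
    rfl
  calc ((box d (2 * R)).card : ℝ) * (2 * (R : ℝ) ^ (-(3 * d + 2 + K)))
      ≤ (R : ℝ) ^ (3 * d : ℝ) * (2 * (R : ℝ) ^ (-(3 * d + 2 + K))) := by
        apply mul_le_mul_of_nonneg_right _ (by positivity)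
        rw [← h3]
        exact card_box_le hR
    _ = 2 * ((R : ℝ) ^ (3 * d : ℝ) * (R : ℝ) ^ (-(3 * d + 2 + K))) := by ring
    _ = 2 * (R : ℝ) ^ (-(K + 2)) := by
        rw [← Real.rpow_add hR0]
        congr 2
        ring

theorem mainG (d : ℕ) {κ K D : ℝ} (hκ : 0 < κ) (hK : 0 ≤ K) (hD : 1 ≤ D) :
    ∃ C : ℝ, 0 < C ∧ ∀ {Ω : Type*} [MeasurableSpace Ω] (P : Measure Ω) [IsProbabilityMeasure P]
      (ξ : (Fin d → ℤ) → Ω → ℝ), (∀ x, Measurable (ξ x)) → iIndepFun ξ P →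
      (∀ x, P.map (ξ x) = gaussianReal 0 1) →
      ∀ σ : ℝ, 0 < σ → σ ≤ 1 / 2 → ∀ R : ℕ, 1 / σ ^ 2 ≤ R →
      P {ω | ¬ (SpreadG d C κ D σ R (fun x => ξ x ω) ∧ NoShortG d C κ σ R (fun x => ξ x ω))} ≤
        ENNReal.ofReal ((R : ℝ) ^ (-K)) := by
  obtain ⟨C0, hC0, h⟩ := main2 d (K := K + 1) hκ (by linarith) (le_max_of_le_left hD : 1 ≤ max D 2)
  set c : ℝ := 2 * (3 * d + 2 + K) with hc
  have hc4 : 4 ≤ c := by
    have : (0 : ℝ) ≤ d := by positivity
    rw [hc]; nlinarith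
  set C' : ℝ := C0 * c + 9 * c with hC'
  have hC'0 : 0 < C' := by positivity
  refine ⟨2 * C', by positivity, ?_⟩
  intro Ω _ P _ ξ hm hi hlaw σ hσ hσ2 R hR
  have hR4' : (4 : ℝ) ≤ R := by
    refine le_trans ?_ hR
    rw [le_div_iff₀ (by positivity)]
    nlinarith
  have hR4 : 4 ≤ R := by exact_mod_cast hR4'
  have hR0 : (0 : ℝ) < R := by linarith
  have hlog2 := Real.log_two_gt_d9
  have hlogR : 2 * Real.log 2 ≤ Real.log R := by
    have : Real.log 4 = 2 * Real.log 2 := by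
      rw [show (4 : ℝ) = 2 ^ 2 by norm_num, Real.log_pow]; norm_num
    rw [← this]
    exact Real.log_le_log (by norm_num) hR4'
  have hlogR1 : 1 ≤ Real.log R := by linarith
  have hlogσ : Real.log 2 ≤ Real.log (1 / σ) := by
    apply Real.log_le_log (by norm_num)
    rw [le_div_iff₀ hσ]
    linarith
  set L : ℝ := Real.sqrt (c * Real.log R) with hL
  have hL2 : L ^ 2 = c * Real.log R := Real.sq_sqrt (by positivity)
  have hL1 : 1 ≤ L := by
    rw [hL]
    apply Real.one_le_sqrt.2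
    nlinarith
  -- the spreading property for the constant `C'` and `D' = max D 2` is enough
  have hsuff : ∀ ω, SpreadG d C' κ (max D 2) σ R (fun x => ξ x ω) →
      (SpreadG d (2 * C') κ D σ R (fun x => ξ x ω) ∧
        NoShortG d (2 * C') κ σ R (fun x => ξ x ω)) := by
    intro ω hS
    exact ⟨(hS.mono (le_max_left D 2)).mono_C (by linarith),
      (hS.mono (le_max_right D 2)).noShort hC'0.le⟩
  by_cases hσL : σ * L ≤ 1 / 2
  · have hlam : 0 < σ * L := by positivity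
    have hi' : iIndepFun (fun x ω => tr L (ξ x ω)) P :=
      hi.comp (fun _ => tr L) fun _ => tr_measurable L
    have h0 := h P (fun x ω => tr L (ξ x ω)) (fun x => (tr_measurable L).comp (hm x)) hi'
      (fun x => Filter.Eventually.of_forall fun ω => tr_abs (by linarith) _)
      (fun x => by
        have := integral_map (μ := P) (hm x).aemeasurable
          (tr_measurable L).aestronglyMeasurable
        rw [← this, hlaw x]
        exact tr_integral L)
      (σ * L) hlam hσL R (by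
        refine le_trans ?_ hR
        apply one_div_le_one_div_of_le (by positivity)
        apply pow_le_pow_left₀ hσ.le
        nlinarith)
    have hub := union_bound P ξ hm hlaw (K := K) R hR4 hc (by linarith) hL2
    have hsub : {ω | ¬ (SpreadG d (2 * C') κ D σ R (fun x => ξ x ω) ∧
        NoShortG d (2 * C') κ σ R (fun x => ξ x ω))} ⊆
        {ω | ¬ ∀ x ∈ box d (2 * R), |ξ x ω| ≤ L} ∪
        {ω | ¬ (Spread d C0 κ (max D 2) (σ * L) R (fun x => tr L (ξ x ω)) ∧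
          NoShort d C0 κ (σ * L) R (fun x => tr L (ξ x ω)))} := by
      intro ω hω
      by_contra hcon
      simp only [Set.mem_union, not_or] at hcon
      obtain ⟨h1, h2⟩ := hcon
      have h1' : ∀ x ∈ box d (2 * R), |ξ x ω| ≤ L := not_not.1 h1
      have h2' := (not_not.1 h2).1
      apply hω
      apply hsuff
      refine SpreadG.mono_C (C := C0 * c) (by rw [hC']; nlinarith) ?_
      exact spreadG_of_spread hC0.le (by positivity) hσ hL1 hσL hL2 (by omega) h1' h2'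
    refine (measure_mono hsub).trans ((measure_union_le _ _).trans ?_)
    refine (add_le_add hub h0).trans ?_
    rw [← ENNReal.ofReal_add (by positivity) (by positivity)]
    apply ENNReal.ofReal_le_ofReal
    have e1 : (R : ℝ) ^ (-(K + 2)) = (R : ℝ) ^ (-K) * (R : ℝ) ^ (-2 : ℝ) := by
      rw [← Real.rpow_add hR0]; congr 1; ring
    have e2 : (R : ℝ) ^ (-(K + 1)) = (R : ℝ) ^ (-K) * (R : ℝ) ^ (-1 : ℝ) := by
      rw [← Real.rpow_add hR0]; congr 1; ring
    rw [e1, e2]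
    have e3 : (R : ℝ) ^ (-1 : ℝ) ≤ 1 / 4 := by
      rw [Real.rpow_neg_one, ← one_div]
      exact one_div_le_one_div_of_le (by norm_num) hR4'
    have e4 : (R : ℝ) ^ (-2 : ℝ) ≤ 1 / 16 := by
      rw [Real.rpow_neg hR0.le, ← one_div]
      apply one_div_le_one_div_of_le (by norm_num)
      rw [Real.rpow_two]
      nlinarith
    have e5 : 0 < (R : ℝ) ^ (-K) := by positivity
    nlinarith
  · have hempty : {ω | ¬ (SpreadG d (2 * C') κ D σ R (fun x => ξ x ω) ∧
        NoShortG d (2 * C') κ σ R (fun x => ξ x ω))} = ∅ := by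
      rw [Set.eq_empty_iff_forall_notMem]
      intro ω hω
      apply hω
      apply hsuff
      apply spreadG_trivial
      push Not at hσL
      have h1 : 1 / 4 ≤ σ ^ 2 * (c * Real.log R) := by
        rw [← hL2, ← mul_pow]
        nlinarith
      have h2 : (2 : ℝ) / 5 ≤ Real.log (1 / σ) ^ 2 := by nlinarith
      have h3 : 0 < C0 * c := by positivity
      have h4 : 9 / 4 ≤ C' * σ ^ 2 * Real.log R := by
        rw [hC']
        have h5 : 0 ≤ C0 * c * σ ^ 2 * Real.log R := by positivity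
        nlinarith
      have h6 : 9 / 4 * 1.38 ≤ C' * σ ^ 2 * Real.log R ^ 2 := by
        rw [pow_two (Real.log _), ← mul_assoc]
        apply mul_le_mul h4 (by linarith) (by norm_num) (by positivity)
      calc (1 : ℝ) ≤ 9 / 4 * 1.38 * (2 / 5) := by norm_num
        _ ≤ _ := mul_le_mul h6 h2 (by norm_num) (by positivity)
    rw [hempty]
    simp

end Pool.Agent.H780R2.AG
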